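import Pool.Agent.Y60.DC.StmSp

/-!
# Project DC, symplectic part: semilinear maps preserving orthogonality, centre, rigidity
-/

set_option autoImplicit false

namespace Pool.Agent.Y195.DSP

open Pool.Agent.Y60.DC

section basic

variable {F V : Type} [Field F] [AddCommGroup V] [Module F V] {B : V →ₗ[F] V →ₗ[F] F}

lemma skew (hB : IsSymp B) (x y : V) : B x y = -B y x := by
  have h := hB.alt (x + y)
  simp only [map_add, LinearMap.add_apply, hB.alt, zero_add, add_zero] at h
  linear_combination h

lemma exists_one (hB : IsSymp B) {v : V} (hv : v ≠ 0) : ∃ w, B v w = 1 := by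
  by_contra hcon
  push Not at hcon
  apply hv
  apply hB.nondeg
  intro y
  by_contra hy
  apply hcon ((B v y)⁻¹ • y)
  rw [map_smul, smul_eq_mul, inv_mul_cancel₀ hy]

lemma exists_two (hB : IsSymp B) {v v' : V} (hv : v ≠ 0) (hv' : v' ≠ 0) :
    ∃ w, B v w ≠ 0 ∧ B v' w ≠ 0 := by
  obtain ⟨w₁, h₁⟩ := exists_one hB hv
  obtain ⟨w₂, h₂⟩ := exists_one hB hv'
  have h₁' : B v w₁ ≠ 0 := by rw [h₁]; exact one_ne_zero
  have h₂' : B v' w₂ ≠ 0 := by rw [h₂]; exact one_ne_zero
  by_cases h3 : B v' w₁ = 0
  · by_cases h4 : B v w₂ = 0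
    · refine ⟨w₁ + w₂, ?_, ?_⟩
      · rw [map_add, h4, add_zero]
        exact h₁'
      · rw [map_add, h3, zero_add]
        exact h₂'
    · exact ⟨w₂, h4, h₂'⟩
  · exact ⟨w₁, h₁', h3⟩

/-- the transvection -/
def tv (B : V →ₗ[F] V →ₗ[F] F) (hB : IsSymp B) (v : V) (a : F) : SpV B :=
  ⟨LinearEquiv.ofLinear (LinearMap.id + (a • B v).smulRight v)
      (LinearMap.id - (a • B v).smulRight v) (by
        ext x
        simp [hB.alt v]) (by
        ext x
        simp [hB.alt v]), by
    intro x y
    simp only [LinearEquiv.ofLinear_apply, LinearMap.add_apply, LinearMap.id_coe, id_eq,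
      LinearMap.smulRight_apply, LinearMap.smul_apply, smul_eq_mul, map_add, map_smul]
    rw [hB.alt v, skew hB x v]
    ring⟩

lemma tv_isTv (hB : IsSymp B) (v : V) (a : F) : IsTv B v a (tv B hB v a) := by
  intro x
  simp [tv]

lemma sp_ne (s : SpV B) {v : V} (hv : v ≠ 0) : s.1 v ≠ 0 := by
  intro h
  apply hv
  apply s.1.injective
  rw [h, map_zero]

lemma sp_inv (s : SpV B) (x : V) : s.1 ((s⁻¹).1 x) = x := s.1.apply_symm_apply x

lemma sp_inv' (s : SpV B) (x : V) : (s⁻¹).1 (s.1 x) = x := s.1.symm_apply_apply x

lemma isTv_conj {t u : SpV B} {w : V} {a : F} (hu : IsTv B w a u) :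
    IsTv B (t.1 w) a (t * u * t⁻¹) := by
  intro x
  show t.1 (u.1 ((t⁻¹).1 x)) = _
  rw [hu, map_add, map_smul, sp_inv]
  congr 2
  congr 1
  have h := t.2 w ((t⁻¹).1 x)
  rw [sp_inv] at h
  exact h.symm

end basic

theorem sim_holds : TaskSSIM := by
  intro F V _ _ _ _ B hB φ g hg hperp
  have hk : ∀ v : V, v ≠ 0 → ∃ k : F, k ≠ 0 ∧ ∀ w, B (g v) (g w) = k * φ (B v w) := by
    intro v hv
    obtain ⟨w₀, h₀⟩ := exists_one hB hv
    refine ⟨B (g v) (g w₀), ?_, ?_⟩
    · intro h
      have := (hperp v w₀).mpr h
      rw [h₀] at this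
      exact one_ne_zero this
    · intro w
      have h1 : B v (w - B v w • w₀) = 0 := by
        rw [map_sub, map_smul, h₀, smul_eq_mul, mul_one, sub_self]
      have h2 := (hperp v _).mp h1
      rw [map_sub, hg, map_sub, map_smul, smul_eq_mul, sub_eq_zero] at h2
      rw [h2, mul_comm]
  have hsym : ∀ v w : V, ∀ k k' : F, (∀ x, B (g v) (g x) = k * φ (B v x)) →
      (∀ x, B (g w) (g x) = k' * φ (B w x)) → B v w ≠ 0 → k = k' := by
    intro v w k k' hv hw h
    have h1 := hv w
    have h2 := hw v
    rw [skew hB (g v) (g w), h2, skew hB w v, map_neg, mul_neg, neg_neg] at h1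
    have h3 : φ (B v w) ≠ 0 := (map_ne_zero φ).mpr h
    exact (mul_right_cancel₀ h3 h1).symm
  by_cases hV : ∃ v : V, v ≠ 0
  · obtain ⟨v₀, hv₀⟩ := hV
    obtain ⟨c, hc, hc2⟩ := hk v₀ hv₀
    refine ⟨c, hc, fun v w => ?_⟩
    by_cases hv : v = 0
    · rw [hv, map_zero, map_zero]
      simp
    · obtain ⟨k, _, hk2⟩ := hk v hv
      obtain ⟨u, hu1, hu2⟩ := exists_two hB hv hv₀
      have hu : u ≠ 0 := by
        rintro rfl
        rw [map_zero] at hu1
        exact hu1 rfl
      obtain ⟨k', _, hk2'⟩ := hk u hu
      have e1 := hsym v u k k' hk2 hk2' hu1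
      have e2 := hsym v₀ u c k' hc2 hk2' hu2
      rw [hk2, e1, e2]
  · push Not at hV
    refine ⟨1, one_ne_zero, fun v w => ?_⟩
    rw [hV v, map_zero, map_zero]
    simp

theorem cen_holds : TaskSCEN := by
  intro F V _ _ _ _ B hB s hs
  have h1 : ∀ v : V, v ≠ 0 → ∃ a : F, s.1 v = a • v := by
    intro v hv
    obtain ⟨x, hx⟩ := exists_one hB hv
    have ht := tv_isTv hB v 1
    have key : (∀ x, s.1 ((tv B hB v 1).1 x) = (tv B hB v 1).1 (s.1 x)) →
        ∃ a : F, s.1 v = a • v := by
      intro h
      have h2 := h x
      rw [ht, ht, map_add, map_smul, one_mul, one_mul, hx, one_smul] at h2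
      exact ⟨_, add_left_cancel h2⟩
    rcases hs (tv B hB v 1) with h | h
    · exact key h
    · by_cases h2 : (2 : F) = 0
      · apply key
        intro x
        rw [h x]
        have h3 : (2 : F) • (tv B hB v 1).1 (s.1 x) = 0 := by rw [h2, zero_smul]
        rw [two_smul] at h3
        exact neg_eq_of_add_eq_zero_left h3
      · have h3 := h v
        rw [ht, ht, map_add, map_smul, one_mul, one_mul, hB.alt, zero_smul, add_zero, neg_add] at h3
        have h4 : (2 : F) • s.1 v = (-(B v (s.1 v))) • v := by
          rw [two_smul, neg_smul]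
          nth_rewrite 1 [h3]
          abel
        refine ⟨2⁻¹ * (-(B v (s.1 v))), ?_⟩
        rw [mul_smul, ← h4, smul_smul, inv_mul_cancel₀ h2, one_smul]
  by_cases hV : ∃ v : V, v ≠ 0
  · obtain ⟨v₀, hv₀⟩ := hV
    have hne : ∀ v w : V, B v w ≠ 0 → v ≠ 0 ∧ w ≠ 0 := by
      intro v w h
      refine ⟨?_, ?_⟩
      · rintro rfl
        rw [map_zero, LinearMap.zero_apply] at h
        exact h rfl
      · rintro rfl
        rw [map_zero] at h
        exact h rfl
    have h2 : ∀ v w : V, ∀ a b : F, s.1 v = a • v → s.1 w = b • w → B v w ≠ 0 →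
        a = b ∧ a * b = 1 := by
      intro v w a b ha hb h
      refine ⟨?_, ?_⟩
      · have hvw : v + w ≠ 0 := by
          intro h0
          apply h
          have : w = -v := (neg_eq_of_add_eq_zero_right h0).symm
          rw [this, map_neg, hB.alt, neg_zero]
        obtain ⟨c, hc⟩ := h1 _ hvw
        rw [map_add, ha, hb, smul_add] at hc
        have e1 := congrArg (fun z => B v z) hc
        simp only [map_add, map_smul, hB.alt v, mul_zero, zero_add, smul_eq_mul] at e1
        have e2 := congrArg (fun z => B w z) hc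
        simp only [map_add, map_smul, hB.alt w, mul_zero, add_zero, smul_eq_mul] at e2
        have h' : B w v ≠ 0 := by
          rw [skew hB w v]
          exact neg_ne_zero.mpr h
        rw [mul_right_cancel₀ h e1, mul_right_cancel₀ h' e2]
      · have h3 := s.2 v w
        rw [ha, hb, map_smul, map_smul, LinearMap.smul_apply, smul_eq_mul, smul_eq_mul,
          ← mul_assoc] at h3
        have h4 : b * a * B v w = 1 * B v w := by rw [h3, one_mul]
        rw [mul_comm a b]
        exact mul_right_cancel₀ h h4
    obtain ⟨a, ha⟩ := h1 v₀ hv₀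
    have h3 : ∀ v : V, s.1 v = a • v := by
      intro v
      by_cases hv : v = 0
      · rw [hv, map_zero, smul_zero]
      · obtain ⟨b, hb⟩ := h1 v hv
        obtain ⟨w, hw1, hw2⟩ := exists_two hB hv hv₀
        obtain ⟨c, hc⟩ := h1 w (hne v w hw1).2
        rw [hb, (h2 v w b c hb hc hw1).1, ← (h2 v₀ w a c ha hc hw2).1]
    have h4 : a * a = 1 := by
      obtain ⟨w, hw1, _⟩ := exists_two hB hv₀ hv₀
      exact (h2 v₀ w a a ha (h3 w) hw1).2
    rcases mul_self_eq_one_iff.mp h4 with h5 | h5
    · left
      intro x
      rw [h3, h5, one_smul]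
    · right
      intro x
      rw [h3, h5, neg_smul, one_smul]
  · push Not at hV
    left
    intro x
    rw [hV x, map_zero]

theorem fin_holds : TaskSGEN → TaskSFIN := by
  intro hgen F V _ _ _ _ B hB G _ π hπ f hf
  -- elements with equal images
  have hker : ∀ u u' : SpV B, π u = π u' →
      (∀ y, u.1 y = u'.1 y) ∨ ∀ y, u.1 y = -u'.1 y := by
    intro u u' h
    have h1 : π (u * u'⁻¹) = 1 := by
      rw [map_mul, map_inv, h, mul_inv_cancel]
    rcases hπ.ker _ h1 with h2 | h2
    · left
      intro y
      have h3 : u.1 ((u'⁻¹).1 (u'.1 y)) = u'.1 y := h2 (u'.1 y)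
      rwa [sp_inv'] at h3
    · right
      intro y
      have h3 : u.1 ((u'⁻¹).1 (u'.1 y)) = -u'.1 y := h2 (u'.1 y)
      rwa [sp_inv'] at h3
  -- two transvections with equal images
  have hpar : ∀ (w w' : V) (b b' : F) (u u' : SpV B), w ≠ 0 → w' ≠ 0 → b ≠ 0 →
      IsTv B w b u → IsTv B w' b' u' → π u = π u' → ∃ c : F, w = c • w' := by
    intro w w' b b' u u' hw hw' hb hu hu' h
    have key : (∀ y, u.1 y = u'.1 y) → ∃ c : F, w = c • w' := by
      intro h1
      obtain ⟨y, hy⟩ := exists_one hB hw
      have h2 := h1 y
      rw [hu, hu', hy, mul_one] at h2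
      have h3 := add_left_cancel h2
      refine ⟨b⁻¹ * (b' * B w' y), ?_⟩
      rw [mul_smul, ← h3, smul_smul, inv_mul_cancel₀ hb, one_smul]
    rcases hker u u' h with h1 | h1
    · exact key h1
    · by_cases h2 : (2 : F) = 0
      · apply key
        intro y
        rw [h1 y]
        have h3 : (2 : F) • u'.1 y = 0 := by rw [h2, zero_smul]
        rw [two_smul] at h3
        exact neg_eq_of_add_eq_zero_left h3
      · have h3 := h1 w'
        rw [hu, hu', hB.alt, mul_zero, zero_smul, add_zero] at h3
        have h4 : (2 : F) • w' = (-(b * B w w')) • w := by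
          rw [two_smul, neg_smul]
          have h5 : w' = -w' - (b * B w w') • w := by
            rw [← h3]
            abel
          nth_rewrite 1 [h5]
          abel
        have h6 : -(b * B w w') ≠ 0 := by
          intro h0
          rw [h0, zero_smul] at h4
          rcases smul_eq_zero.mp h4 with h7 | h7
          · exact h2 h7
          · exact hw' h7
        refine ⟨(-(b * B w w'))⁻¹ * 2, ?_⟩
        rw [mul_smul, h4, smul_smul, inv_mul_cancel₀ h6, one_smul]
  -- the automorphism fixes the images of the transvections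
  have hfix : ∀ (v : V) (a : F) (t : SpV B), IsTv B v a t → f (π t) = π t := by
    intro v a t ht
    by_cases hv : v = 0
    · have h1 : t = 1 := by
        apply Subtype.ext
        apply LinearEquiv.ext
        intro x
        rw [ht x, hv, smul_zero, add_zero]
        rfl
      rw [h1, map_one, map_one]
    · obtain ⟨a', t', ht', hft⟩ := hf v hv a t ht
      have h1 : ∀ w : V, w ≠ 0 → ∃ c : F, t'.1 w = c • t.1 w := by
        intro w hw
        obtain ⟨b, u', hu', hfu⟩ := hf w hw 1 (tv B hB w 1) (tv_isTv hB w 1)
        have hb : b ≠ 0 := by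
          intro hb
          have e1 : u' = 1 := by
            apply Subtype.ext
            apply LinearEquiv.ext
            intro x
            rw [hu' x, hb, zero_mul, zero_smul, add_zero]
            rfl
          rw [e1, map_one] at hfu
          have e2 : π (tv B hB w 1) = π 1 := by
            rw [map_one]
            exact (MulEquiv.map_eq_one_iff f).mp hfu
          obtain ⟨y, hy⟩ := exists_one hB hw
          have key : ¬ ∀ y, (tv B hB w 1).1 y = (1 : SpV B).1 y := by
            intro h
            have h2 := h y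
            rw [tv_isTv hB w 1, hy, one_mul, one_smul] at h2
            have h3 : y + w = y + 0 := by
              rw [h2, add_zero]
              rfl
            exact hw (add_left_cancel h3)
          rcases hker _ _ e2 with h | h
          · exact key h
          · by_cases h2 : (2 : F) = 0
            · apply key
              intro y
              rw [h y]
              have h3 : (2 : F) • (1 : SpV B).1 y = 0 := by rw [h2, zero_smul]
              rw [two_smul] at h3
              exact neg_eq_of_add_eq_zero_left h3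
            · have h3 := h w
              rw [tv_isTv hB w 1, hB.alt, mul_zero, zero_smul, add_zero] at h3
              have h4 : w = -w := h3
              have h5 : (2 : F) • w = 0 := by
                rw [two_smul]
                nth_rewrite 1 [h4]
                abel
              rcases smul_eq_zero.mp h5 with h6 | h6
              · exact h2 h6
              · exact hw h6
        have htw := sp_ne t hw
        obtain ⟨b'', u'', hu'', hfu''⟩ := hf (t.1 w) htw 1 (t * tv B hB w 1 * t⁻¹)
          (isTv_conj (tv_isTv hB w 1))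
        have e3 : π (t' * u' * t'⁻¹) = π u'' := by
          rw [← hfu'', map_mul, map_mul, map_mul, map_mul, map_mul, map_mul, map_inv, map_inv,
            map_inv, hft, hfu]
        exact hpar (t'.1 w) (t.1 w) b b'' _ u'' (sp_ne t' hw) htw hb (isTv_conj hu') hu'' e3
      have h2 : t' = t := by
        apply Subtype.ext
        apply LinearEquiv.ext
        intro w
        by_cases hw : B v w = 0
        · rw [ht, ht', hw]
          simp
        · have hw0 : w ≠ 0 := by
            rintro rfl
            rw [map_zero] at hw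
            exact hw rfl
          obtain ⟨c, hc⟩ := h1 w hw0
          have h3 := congrArg (fun z => B v z) hc
          simp only [ht w, ht' w, map_add, map_smul, hB.alt v, mul_zero, add_zero,
            smul_eq_mul] at h3
          have h4 : c = 1 := by
            have : c * B v w = 1 * B v w := by rw [← h3, one_mul]
            exact mul_right_cancel₀ hw this
          rw [hc, h4, one_smul]
      rw [hft, h2]
  have hall : ∀ s : SpV B, f (π s) = π s := by
    intro s
    have hs : s ∈ Subgroup.closure {t : SpV B | ∃ v a, IsTv B v a t} := by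
      rw [hgen F V B hB]
      exact Subgroup.mem_top s
    induction hs using Subgroup.closure_induction with
    | mem x hx =>
      obtain ⟨v, a, h⟩ := hx
      exact hfix v a x h
    | one => rw [map_one, map_one]
    | mul x y _ _ hx hy => rw [map_mul, map_mul, hx, hy]
    | inv x _ hx => rw [map_inv, map_inv, hx]
  apply MulEquiv.ext
  intro x
  obtain ⟨s, rfl⟩ := hπ.surj x
  exact hall s

end Pool.Agent.Y195.DSP
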